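import Pool.Agent.V1166.DA.Rat

/-! From counting exceptional rational numbers to rational approximations of almost all real numbers. -/

set_option autoImplicit false

open Filter Topology MeasureTheory

namespace Pool.Agent.V1166.DA

/-- Rational numbers close to `z` are finitely many for bounded denominator. -/
theorem fin_near (z c N : ℝ) : {q : ℚ | |z - q| ≤ c ∧ (q.den : ℝ) ≤ N}.Finite := by
  obtain ⟨M, hM⟩ := exists_nat_ge N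
  obtain ⟨K, hK⟩ := exists_nat_ge ((|z| + c) * M)
  refine ((Finset.Icc (-(K : ℤ)) K ×ˢ Finset.range (M + 1)).finite_toSet.image
    (fun p : ℤ × ℕ => (p.1 : ℚ) / p.2)).subset ?_
  rintro q ⟨h1, h2⟩
  have hd : (0 : ℝ) < q.den := by exact_mod_cast q.den_pos
  have hdM : (q.den : ℝ) ≤ M := h2.trans hM
  refine ⟨(q.num, q.den), ?_, Rat.num_div_den q⟩
  have hq : |(q : ℝ)| ≤ |z| + c := by
    have h3 : |(q : ℝ)| ≤ |z| + |z - q| := by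
      have := abs_sub z (z - q)
      simpa using this
    linarith
  have hnum : |(q.num : ℝ)| ≤ K := by
    have h4 : (q.num : ℝ) = q * q.den := by
      have := Rat.mul_den_eq_num q
      exact_mod_cast this.symm
    rw [h4, abs_mul, abs_of_pos hd]
    refine le_trans ?_ hK
    have := abs_nonneg (q : ℝ)
    have h0 : 0 ≤ |z| + c := this.trans hq
    exact mul_le_mul hq hdM hd.le h0
  have hnum' : |q.num| ≤ (K : ℤ) := by exact_mod_cast hnum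
  have hdM' : q.den ≤ M := by exact_mod_cast hdM
  simp only [Finset.coe_product, Set.mem_prod, Finset.mem_coe, Finset.mem_Icc, Finset.mem_range]
  exact ⟨abs_le.1 hnum', by omega⟩

/-- Local form. -/
theorem dim_gen (Bad : ℝ → ℝ → ℚ → Prop)
    (hmono : ∀ H H' ε ε' : ℝ, ∀ q : ℚ, H ≤ H' → ε ≤ ε' → Bad H ε q → Bad H' ε' q)
    {a b κ β0 A : ℝ} (hκ : 0 < κ) (hβ0 : 0 ≤ β0) (hA : 0 ≤ A)
    (hc : ∀ β : ℝ, β0 < β → ∃ B C : ℝ, ∀ T : ℝ, 1 ≤ T →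
      {q : ℚ | a ≤ q ∧ q ≤ b ∧ (q.den : ℝ) ≤ T ∧ Bad (T ^ A) (T ^ (-B)) q}.Finite ∧
      ({q : ℚ | a ≤ q ∧ q ≤ b ∧ (q.den : ℝ) ≤ T ∧ Bad (T ^ A) (T ^ (-B)) q}.ncard : ℝ) ≤ C * T ^ β) :
    dimH {z : ℝ | a < z ∧ z < b ∧ ¬ ∃ B : ℝ, {q : ℚ | |z - q| ≤ (q.den : ℝ) ^ (-κ) ∧
      Bad ((q.den : ℝ) ^ A) ((q.den : ℝ) ^ (-B)) q}.Finite} ≤ ENNReal.ofReal (β0 / κ) := by
  apply dim_le_of_forall (by positivity)
  intro D hD
  set β : ℝ := κ * D with hβ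
  have hβ1 : β0 < β := by
    rw [div_lt_iff₀ hκ] at hD
    linarith
  have hβ2 : 0 ≤ β := hβ0.trans hβ1.le
  have hDβ : D = β / κ := by
    rw [hβ]
    field_simp
  obtain ⟨B, C, hBC⟩ := hc β hβ1
  set B' : ℝ := 2 * max B 0 with hB'
  have hB'0 : 0 ≤ B' := by positivity
  set S : Set ℚ := {q : ℚ | a ≤ q ∧ q ≤ b ∧ Bad ((q.den : ℝ) ^ A) ((q.den : ℝ) ^ (-B')) q} with hS
  have hfin0 : {q : ℚ | a ≤ q ∧ q ≤ b ∧ (q.den : ℝ) ≤ 2}.Finite := by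
    refine (fin_near a |b - a| 2).subset ?_
    rintro q ⟨h1, h2, h3⟩
    refine ⟨?_, h3⟩
    rw [abs_sub_comm, abs_of_nonneg (by linarith), abs_of_nonneg (by linarith)]
    linarith
  set C0 : ℝ := ({q : ℚ | a ≤ q ∧ q ≤ b ∧ (q.den : ℝ) ≤ 2}.ncard : ℝ) with hC0
  set C1 : ℝ := max (|C| * 2 ^ β) C0 with hC1
  have hpos : ∀ n : ℕ, (0 : ℝ) < (2 : ℝ) ^ n := fun n => by positivity
  have hcount : ∀ n : ℕ, {q : ℚ | q ∈ S ∧ (2 : ℝ) ^ n ≤ q.den ∧ (q.den : ℝ) ≤ 2 ^ (n + 1)}.Finite ∧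
      ({q : ℚ | q ∈ S ∧ (2 : ℝ) ^ n ≤ q.den ∧ (q.den : ℝ) ≤ 2 ^ (n + 1)}.ncard : ℝ) ≤
        C1 * ((2 : ℝ) ^ n) ^ β := by
    intro n
    rcases Nat.eq_zero_or_pos n with hn | hn
    · subst hn
      have hsub : {q : ℚ | q ∈ S ∧ (2 : ℝ) ^ 0 ≤ q.den ∧ (q.den : ℝ) ≤ 2 ^ (0 + 1)} ⊆
          {q : ℚ | a ≤ q ∧ q ≤ b ∧ (q.den : ℝ) ≤ 2} := by
        rintro q ⟨⟨h1, h2, _⟩, _, h3⟩
        exact ⟨h1, h2, by simpa using h3⟩
      refine ⟨hfin0.subset hsub, ?_⟩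
      have h4 : ({q : ℚ | q ∈ S ∧ (2 : ℝ) ^ 0 ≤ q.den ∧ (q.den : ℝ) ≤ 2 ^ (0 + 1)}.ncard : ℝ) ≤ C0 := by
        exact Nat.cast_le.2 (Set.ncard_le_ncard hsub hfin0)
      have h4' : C0 ≤ C1 := le_max_right _ _
      rw [pow_zero, Real.one_rpow, mul_one]
      exact h4.trans h4'
    · have h2n : (1 : ℝ) ≤ (2 : ℝ) ^ (n + 1) := one_le_pow₀ (by norm_num)
      obtain ⟨hf, hcd⟩ := hBC ((2 : ℝ) ^ (n + 1)) h2n
      have hsub : {q : ℚ | q ∈ S ∧ (2 : ℝ) ^ n ≤ q.den ∧ (q.den : ℝ) ≤ 2 ^ (n + 1)} ⊆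
          {q : ℚ | a ≤ q ∧ q ≤ b ∧ (q.den : ℝ) ≤ 2 ^ (n + 1) ∧
            Bad (((2 : ℝ) ^ (n + 1)) ^ A) (((2 : ℝ) ^ (n + 1)) ^ (-B)) q} := by
        rintro q ⟨⟨h1, h2, h3⟩, h4, h5⟩
        refine ⟨h1, h2, h5, hmono _ _ _ _ q ?_ ?_ h3⟩
        · exact Real.rpow_le_rpow (by positivity) h5 hA
        · have h6 : (q.den : ℝ) ^ (-B') ≤ ((2 : ℝ) ^ n) ^ (-B') :=
            Real.rpow_le_rpow_of_nonpos (hpos n) h4 (by linarith)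
          refine h6.trans ?_
          rw [← Real.rpow_natCast, ← Real.rpow_natCast, ← Real.rpow_mul (by norm_num),
            ← Real.rpow_mul (by norm_num)]
          apply Real.rpow_le_rpow_of_exponent_le (by norm_num)
          have h7 : B ≤ max B 0 := le_max_left _ _
          have h8 : (0 : ℝ) ≤ max B 0 := le_max_right _ _
          have h9 : (1 : ℝ) ≤ n := by exact_mod_cast hn
          push_cast
          rw [hB']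
          nlinarith [mul_nonneg h8 (by linarith : (0 : ℝ) ≤ (n : ℝ) - 1),
            mul_nonneg (by linarith : (0 : ℝ) ≤ max B 0 - B) (by linarith : (0 : ℝ) ≤ (n : ℝ) + 1)]
      refine ⟨hf.subset hsub, ?_⟩
      have h10 : ({q : ℚ | q ∈ S ∧ (2 : ℝ) ^ n ≤ q.den ∧ (q.den : ℝ) ≤ 2 ^ (n + 1)}.ncard : ℝ) ≤
          ({q : ℚ | a ≤ q ∧ q ≤ b ∧ (q.den : ℝ) ≤ 2 ^ (n + 1) ∧
            Bad (((2 : ℝ) ^ (n + 1)) ^ A) (((2 : ℝ) ^ (n + 1)) ^ (-B)) q}.ncard : ℝ) := by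
        exact Nat.cast_le.2 (Set.ncard_le_ncard hsub hf)
      have hp : (0 : ℝ) ≤ ((2 : ℝ) ^ n) ^ β := Real.rpow_nonneg (hpos n).le _
      calc ({q : ℚ | q ∈ S ∧ (2 : ℝ) ^ n ≤ q.den ∧ (q.den : ℝ) ≤ 2 ^ (n + 1)}.ncard : ℝ) ≤
          C * ((2 : ℝ) ^ (n + 1)) ^ β := h10.trans hcd
        _ ≤ |C| * ((2 : ℝ) ^ (n + 1)) ^ β := by
          have := Real.rpow_nonneg (hpos (n + 1)).le β
          gcongr
          exact le_abs_self C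
        _ = |C| * 2 ^ β * ((2 : ℝ) ^ n) ^ β := by
          rw [pow_succ, Real.mul_rpow (hpos n).le (by norm_num)]
          ring
        _ ≤ C1 * ((2 : ℝ) ^ n) ^ β := by
          gcongr
          exact le_max_left _ _
  have hC1' : 0 ≤ C1 := le_trans (by positivity) (le_max_right _ _)
  have hdim := dim_lim S hκ hβ2 hC1' hcount
  rw [hDβ]
  refine (dimH_mono ?_).trans hdim
  rintro z ⟨haz, hzb, hz⟩
  have hz' : ¬ {q : ℚ | |z - q| ≤ (q.den : ℝ) ^ (-κ) ∧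
      Bad ((q.den : ℝ) ^ A) ((q.den : ℝ) ^ (-B')) q}.Finite := fun h => hz ⟨B', h⟩
  -- large denominators give small distances
  set δ : ℝ := min (z - a) (b - z) with hδ
  have hδ0 : 0 < δ := lt_min (by linarith) (by linarith)
  have htend : Tendsto (fun x : ℝ => x ^ (-κ)) atTop (𝓝 0) := tendsto_rpow_neg_atTop hκ
  obtain ⟨N, hN⟩ := (htend.eventually (ge_mem_nhds hδ0)).exists_forall_of_atTop
  have hfin1 : {q : ℚ | |z - q| ≤ 1 ∧ (q.den : ℝ) ≤ N}.Finite := fin_near z 1 N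
  have hinf := Set.Infinite.sdiff hz' hfin1
  refine hinf.mono ?_
  rintro q ⟨⟨h1, h2⟩, h3⟩
  have hd1 : (1 : ℝ) ≤ q.den := by exact_mod_cast q.den_pos
  have hle1 : (q.den : ℝ) ^ (-κ) ≤ 1 := Real.rpow_le_one_of_one_le_of_nonpos hd1 (by linarith)
  have hNd : N ≤ (q.den : ℝ) := by
    by_contra hlt
    exact h3 ⟨h1.trans hle1, (not_le.1 hlt).le⟩
  have h4 : |z - q| ≤ δ := h1.trans (hN _ hNd)
  have h5 := abs_le.1 h4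
  have h6 : δ ≤ z - a := min_le_left _ _
  have h7 : δ ≤ b - z := min_le_right _ _
  exact ⟨⟨by linarith [h5.2], by linarith [h5.1], h2⟩, h1⟩

/-- Global form. -/
theorem dim_glob (Bad : ℝ → ℝ → ℚ → Prop)
    (hmono : ∀ H H' ε ε' : ℝ, ∀ q : ℚ, H ≤ H' → ε ≤ ε' → Bad H ε q → Bad H' ε' q)
    {κ β0 : ℝ} (hκ : 0 < κ) (hβ0 : 0 ≤ β0) {O : Set ℝ} (hO : IsOpen O)
    (hc : ∀ a b A : ℝ, a < b → Set.Icc a b ⊆ O → 0 ≤ A → ∀ β : ℝ, β0 < β → ∃ B C : ℝ, ∀ T : ℝ, 1 ≤ T →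
      {q : ℚ | a ≤ q ∧ q ≤ b ∧ (q.den : ℝ) ≤ T ∧ Bad (T ^ A) (T ^ (-B)) q}.Finite ∧
      ({q : ℚ | a ≤ q ∧ q ≤ b ∧ (q.den : ℝ) ≤ T ∧ Bad (T ^ A) (T ^ (-B)) q}.ncard : ℝ) ≤ C * T ^ β) :
    dimH {z : ℝ | z ∈ O ∧ ¬ ∀ A : ℝ, ∃ B : ℝ, {q : ℚ | |z - q| ≤ (q.den : ℝ) ^ (-κ) ∧
      Bad ((q.den : ℝ) ^ A) ((q.den : ℝ) ^ (-B)) q}.Finite} ≤ ENNReal.ofReal (β0 / κ) := by
  set X : {p : (ℚ × ℚ) × ℕ // (p.1.1 : ℝ) < p.1.2 ∧ Set.Icc (p.1.1 : ℝ) p.1.2 ⊆ O} → Set ℝ :=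
    fun p => {z : ℝ | (p.1.1.1 : ℝ) < z ∧ z < p.1.1.2 ∧ ¬ ∃ B : ℝ, {q : ℚ | |z - q| ≤ (q.den : ℝ) ^ (-κ) ∧
      Bad ((q.den : ℝ) ^ (p.1.2 : ℝ)) ((q.den : ℝ) ^ (-B)) q}.Finite} with hX
  have h1 : {z : ℝ | z ∈ O ∧ ¬ ∀ A : ℝ, ∃ B : ℝ, {q : ℚ | |z - q| ≤ (q.den : ℝ) ^ (-κ) ∧
      Bad ((q.den : ℝ) ^ A) ((q.den : ℝ) ^ (-B)) q}.Finite} ⊆ ⋃ p, X p := by
    rintro z ⟨hz, hA⟩
    push Not at hA
    obtain ⟨A, hA⟩ := hA
    obtain ⟨m, hm⟩ := exists_nat_ge A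
    obtain ⟨ε, hε, hball⟩ := Metric.isOpen_iff.1 hO z hz
    obtain ⟨a, ha1, ha2⟩ := exists_rat_btwn (show z - ε < z by linarith)
    obtain ⟨b, hb1, hb2⟩ := exists_rat_btwn (show z < z + ε by linarith)
    refine Set.mem_iUnion.2 ⟨⟨((a, b), m), ha2.trans hb1, ?_⟩, ha2, hb1, ?_⟩
    · intro x hx
      apply hball
      rw [Metric.mem_ball, Real.dist_eq, abs_lt]
      have h3 : (a : ℝ) ≤ x := hx.1
      have h4 : x ≤ (b : ℝ) := hx.2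
      exact ⟨by linarith, by linarith⟩
    · rintro ⟨B, hB⟩
      refine hA B (hB.subset ?_)
      rintro q ⟨h3, h4⟩
      refine ⟨h3, hmono _ _ _ _ q ?_ le_rfl h4⟩
      have hd1 : (1 : ℝ) ≤ q.den := by exact_mod_cast q.den_pos
      exact Real.rpow_le_rpow_of_exponent_le hd1 hm
  refine (dimH_mono h1).trans ?_
  rw [dimH_iUnion]
  refine iSup_le fun p => ?_
  exact dim_gen Bad hmono hκ hβ0 (Nat.cast_nonneg _)
    (fun β hβ => hc _ _ _ p.2.1 p.2.2 (Nat.cast_nonneg _) β hβ)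

end Pool.Agent.V1166.DA
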