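import Pool.Agent.V11001.KM.Basic

/-! The real numbers with infinitely many good rational approximations in a thin set of rational
numbers. -/

set_option autoImplicit false

open Filter Topology MeasureTheory

namespace Pool.Agent.V1166.DA

/-- The real numbers `z` with infinitely many `q` in `S` such that `|z - q| ≤ den(q) ^ (-κ)`. -/
def Lim (S : Set ℚ) (κ : ℝ) : Set ℝ :=
  {z : ℝ | {q : ℚ | q ∈ S ∧ |z - q| ≤ (q.den : ℝ) ^ (-κ)}.Infinite}

theorem dim_le_of_forall {X : Set ℝ} {s : ℝ} (hs : 0 ≤ s)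
    (h : ∀ D : ℝ, s < D → dimH X ≤ ENNReal.ofReal D) : dimH X ≤ ENNReal.ofReal s := by
  apply ENNReal.le_of_forall_pos_le_add
  intro ε hε _
  have hε' : (0 : ℝ) < ε := by exact_mod_cast hε
  have h1 := h (s + ε) (by linarith)
  rwa [ENNReal.ofReal_add hs hε'.le, ENNReal.ofReal_coe_nnreal] at h1

/-- If for all `n` the set `S` has at most `C 2 ^ (β n)` elements with denominator between `2 ^ n` and
`2 ^ (n + 1)`, then `Lim S κ` has dimension at most `β / κ`. -/
theorem dim_lim (S : Set ℚ) {β κ C : ℝ} (hκ : 0 < κ) (hβ : 0 ≤ β) (hC : 0 ≤ C)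
    (hS : ∀ n : ℕ, {q : ℚ | q ∈ S ∧ (2 : ℝ) ^ n ≤ q.den ∧ (q.den : ℝ) ≤ 2 ^ (n + 1)}.Finite ∧
      ({q : ℚ | q ∈ S ∧ (2 : ℝ) ^ n ≤ q.den ∧ (q.den : ℝ) ≤ 2 ^ (n + 1)}.ncard : ℝ) ≤
        C * ((2 : ℝ) ^ n) ^ β) :
    dimH (Lim S κ) ≤ ENNReal.ofReal (β / κ) := by
  classical
  apply dim_le_of_forall (by positivity)
  intro D hD
  have hD0 : 0 < D := lt_of_le_of_lt (by positivity) hD
  have hβD : β - κ * D < 0 := by
    rw [div_lt_iff₀ hκ] at hD
    linarith
  set U : ℕ → Finset ℚ := fun n => (hS n).1.toFinset with hU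
  set r0 : ℕ → ℝ := fun n => 2 * ((2 : ℝ) ^ n) ^ (-κ) with hr0
  set W : ℕ → ℚ → Set ℝ := fun n q => Metric.closedBall (q : ℝ) (((2 : ℝ) ^ n) ^ (-κ)) with hW
  have h2 : ∀ n : ℕ, ((2 : ℝ) ^ n) ^ (-κ) = ((2 : ℝ) ^ (-κ)) ^ n := by
    intro n
    rw [← Real.rpow_natCast, ← Real.rpow_natCast, ← Real.rpow_mul (by norm_num),
      ← Real.rpow_mul (by norm_num)]
    congr 1
    ring
  have hlt : (2 : ℝ) ^ (-κ) < 1 := Real.rpow_lt_one_of_one_lt_of_neg (by norm_num) (by linarith)
  have hpos : ∀ n : ℕ, (0 : ℝ) < (2 : ℝ) ^ n := fun n => by positivity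
  have hmain := Pool.Agent.V11001.KM.dim_cover U W r0 hD0
    (fun n => by
      have := Real.rpow_pos_of_pos (hpos n) (-κ)
      simp only [hr0]
      linarith)
    (by
      have h3 : Tendsto (fun n : ℕ => ((2 : ℝ) ^ (-κ)) ^ n) atTop (𝓝 0) :=
        tendsto_pow_atTop_nhds_zero_of_lt_one (by positivity) hlt
      have h4 := h3.const_mul 2
      rw [mul_zero] at h4
      refine h4.congr fun n => ?_
      simp only [hr0, h2])
    (fun n q _ => by
      have h5 : Metric.ediam (W n q) ≤ ENNReal.ofReal (2 * ((2 : ℝ) ^ n) ^ (-κ)) := by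
        simp only [hW]
        rw [Real.closedBall_eq_Icc, Real.ediam_Icc]
        apply ENNReal.ofReal_le_ofReal
        linarith
      exact h5)
    (by
      have hgeo : Summable fun n : ℕ => C * 2 ^ D * ((2 : ℝ) ^ (β - κ * D)) ^ n := by
        apply Summable.mul_left
        apply summable_geometric_of_lt_one (by positivity)
        exact Real.rpow_lt_one_of_one_lt_of_neg (by norm_num) hβD
      refine Summable.of_nonneg_of_le (fun n => ?_) (fun n => ?_) hgeo
      · have := Real.rpow_pos_of_pos (hpos n) (-κ)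
        positivity
      · have hcard : ((U n).card : ℝ) ≤ C * ((2 : ℝ) ^ n) ^ β := by
          have h7 := (hS n).2
          rw [Set.ncard_eq_toFinset_card _ (hS n).1] at h7
          exact h7
        have h8 : (0 : ℝ) ≤ (r0 n) ^ D := by
          have := Real.rpow_pos_of_pos (hpos n) (-κ)
          positivity
        calc ((U n).card : ℝ) * (r0 n) ^ D ≤ C * ((2 : ℝ) ^ n) ^ β * (r0 n) ^ D := by gcongr
          _ = C * 2 ^ D * ((2 : ℝ) ^ (β - κ * D)) ^ n := by
            rw [hr0]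
            rw [Real.mul_rpow (by norm_num) (Real.rpow_nonneg (hpos n).le _),
              ← Real.rpow_mul (hpos n).le, ← Real.rpow_natCast (2 ^ (β - κ * D)) n,
              ← Real.rpow_mul (by norm_num), ← Real.rpow_natCast 2 n,
              ← Real.rpow_mul (by norm_num), ← Real.rpow_mul (by norm_num)]
            have h9 : (2 : ℝ) ^ ((β - κ * D) * n) =
                (2 : ℝ) ^ ((n : ℝ) * β) * (2 : ℝ) ^ ((n : ℝ) * (-κ * D)) := by
              rw [← Real.rpow_add (by norm_num)]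
              congr 1
              ring
            rw [h9]
            ring)
  refine (dimH_mono ?_).trans hmain
  intro z hz n1
  have hfin : {q : ℚ | q ∈ S ∧ (q.den : ℝ) < 2 ^ n1}.Finite := by
    refine ((Finset.range n1).finite_toSet.biUnion fun m _ => (hS m).1).subset ?_
    rintro q ⟨hq, hlt'⟩
    have hd : 1 ≤ q.den := q.den_pos
    have hdl : (q.den : ℝ) < 2 ^ n1 := hlt'
    have hdn : q.den < 2 ^ n1 := by exact_mod_cast hdl
    have hlog : Nat.log 2 q.den < n1 := Nat.log_lt_of_lt_pow (by omega) hdn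
    simp only [Set.mem_iUnion]
    refine ⟨Nat.log 2 q.den, by simpa using hlog, hq, ?_, ?_⟩
    · exact_mod_cast Nat.pow_log_le_self 2 (by omega)
    · exact_mod_cast (Nat.lt_pow_succ_log_self (by norm_num) q.den).le
  have hinf := Set.Infinite.sdiff hz hfin
  obtain ⟨q, ⟨hq, hzq⟩, hnot⟩ := hinf.nonempty
  have hge : (2 : ℝ) ^ n1 ≤ q.den := by
    by_contra hlt'
    exact hnot ⟨hq, not_le.1 hlt'⟩
  have hgen : 2 ^ n1 ≤ q.den := by exact_mod_cast hge
  have hd : q.den ≠ 0 := q.den_pos.ne'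
  refine ⟨Nat.log 2 q.den, ?_, q, ?_, ?_⟩
  · exact Nat.le_log_of_pow_le (by norm_num) hgen
  · simp only [hU, Set.Finite.mem_toFinset]
    refine ⟨hq, ?_, ?_⟩
    · exact_mod_cast Nat.pow_log_le_self 2 hd
    · exact_mod_cast (Nat.lt_pow_succ_log_self (by norm_num) q.den).le
  · rw [hW]
    simp only [Metric.mem_closedBall, Real.dist_eq]
    refine hzq.trans ?_
    apply Real.rpow_le_rpow_of_nonpos (by positivity) _ (by linarith)
    exact_mod_cast Nat.pow_log_le_self 2 hd

/-- Sets of dimension less than one are null sets. -/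
theorem null_of_dim {X : Set ℝ} {s : ℝ} (hs : s < 1) (h : dimH X ≤ ENNReal.ofReal s) :
    volume X = 0 := by
  have h1 : dimH X < 1 := by
    refine lt_of_le_of_lt h ?_
    rw [← ENNReal.ofReal_one]
    exact ENNReal.ofReal_lt_ofReal_iff (by norm_num) |>.2 hs
  rw [← hausdorffMeasure_real]
  have h2 : dimH X < ((1 : NNReal) : ENNReal) := by simpa using h1
  have h3 := hausdorffMeasure_of_dimH_lt h2
  simpa using h3

end Pool.Agent.V1166.DA
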